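import Pool.Agent.Helper65.KPZ.St

/-!
Project KP, chapter Z, module ZGE: bihomogeneous generators.
-/

set_option autoImplicit false

namespace Pool.Agent.Helper16.KPZ

open Pool.Agent.Helper52.KP Pool.Agent.Helper67.NO Pool.Agent.Helper65.KPZ
open scoped LaurentPolynomial

universe u

private theorem fin_adjoin {R B : Type*} [CommSemiring R] [CommRing B] [Algebra R B] (G : Set B)
    (x : B) (hx : x ∈ Algebra.adjoin R G) :
    ∃ t : Finset B, (t : Set B) ⊆ G ∧ x ∈ Algebra.adjoin R (t : Set B) := by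
  classical
  induction hx using Algebra.adjoin_induction with
  | mem x hx => exact ⟨{x}, by simpa using hx, Algebra.subset_adjoin (by simp)⟩
  | algebraMap r => exact ⟨∅, by simp, Subalgebra.algebraMap_mem _ r⟩
  | add x y _ _ hx hy =>
    obtain ⟨s, hs, hxs⟩ := hx
    obtain ⟨t, ht, hyt⟩ := hy
    refine ⟨s ∪ t, by simp [hs, ht], ?_⟩
    exact add_mem (Algebra.adjoin_mono (by simp) hxs) (Algebra.adjoin_mono (by simp) hyt)
  | mul x y _ _ hx hy =>
    obtain ⟨s, hs, hxs⟩ := hx
    obtain ⟨t, ht, hyt⟩ := hy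
    refine ⟨s ∪ t, by simp [hs, ht], ?_⟩
    exact mul_mem (Algebra.adjoin_mono (by simp) hxs) (Algebra.adjoin_mono (by simp) hyt)

private theorem fin_gens {R B : Type*} [CommSemiring R] [CommRing B] [Algebra R B] (G : Set B)
    (h : (Algebra.adjoin R G).FG) :
    ∃ t : Finset B, (t : Set B) ⊆ G ∧ Algebra.adjoin R (t : Set B) = Algebra.adjoin R G := by
  classical
  obtain ⟨S, hS⟩ := h
  have h1 : ∀ s ∈ S, ∃ t : Finset B, (t : Set B) ⊆ G ∧ s ∈ Algebra.adjoin R (t : Set B) := by
    intro s hs
    apply fin_adjoin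
    rw [← hS]
    exact Algebra.subset_adjoin hs
  choose! t ht1 ht2 using h1
  refine ⟨S.biUnion t, ?_, ?_⟩
  · intro x hx
    simp only [Finset.coe_biUnion, Set.mem_iUnion] at hx
    obtain ⟨s, hs, hx⟩ := hx
    exact ht1 s hs hx
  · apply le_antisymm
    · apply Algebra.adjoin_mono
      intro x hx
      simp only [Finset.coe_biUnion, Set.mem_iUnion] at hx
      obtain ⟨s, hs, hx⟩ := hx
      exact ht1 s hs hx
    · rw [← hS]
      apply Algebra.adjoin_le
      intro s hs
      refine Algebra.adjoin_mono ?_ (ht2 s hs)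
      intro x hx
      simp only [Finset.coe_biUnion, Set.mem_iUnion]
      exact ⟨s, hs, hx⟩

private theorem prod_CT {A : Type u} [CommRing A] {s : ℕ} (f : Fin s → A) (ll : Fin s → ℤ)
    (e : Fin s → ℕ) (S : Finset (Fin s)) :
    ∏ i ∈ S, (LaurentPolynomial.C (f i) * LaurentPolynomial.T (-ll i) : A[T;T⁻¹]) ^ e i
      = LaurentPolynomial.C (∏ i ∈ S, f i ^ e i)
        * LaurentPolynomial.T (-∑ i ∈ S, (e i : ℤ) * ll i) := by
  classical
  induction S using Finset.induction_on with
  | empty => simp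
  | insert a S ha ih =>
    rw [Finset.prod_insert ha, ih, Finset.prod_insert ha, Finset.sum_insert ha, mul_pow,
      LaurentPolynomial.T_pow, neg_add, LaurentPolynomial.T_add, map_mul, map_pow]
    have : (e a : ℤ) * -ll a = -((e a : ℤ) * ll a) := by ring
    rw [this]
    ring

theorem hZGE : StZGE.{u} := by
  classical
  intro A _ _ D F h
  obtain ⟨t, ht, htG⟩ := fin_gens _ h.fg
  set s : ℕ := t.card with hs
  have hex : ∀ i : Fin s, ∃ (k : ℕ) (l : ℤ) (f : A), f ∈ F k l ∧
      ((t.equivFin.symm i : t) : A[T;T⁻¹]) = LaurentPolynomial.C f * LaurentPolynomial.T (-l) :=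
    fun i => ht (t.equivFin.symm i).2
  choose kk ll f hf hb using hex
  refine ⟨s, kk, ll, f, hf, ?_⟩
  intro k l x hx
  have hxG : (LaurentPolynomial.C x * LaurentPolynomial.T (-l) : A[T;T⁻¹])
      ∈ Algebra.adjoin ℂ (t : Set A[T;T⁻¹]) := by
    rw [htG]
    exact Algebra.subset_adjoin ⟨k, l, x, hx, rfl⟩
  have hrange : (t : Set A[T;T⁻¹]) = Set.range (fun i : Fin s =>
      (LaurentPolynomial.C (f i) * LaurentPolynomial.T (-ll i) : A[T;T⁻¹])) := by
    ext y
    simp only [Set.mem_range]
    constructor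
    · intro hy
      refine ⟨t.equivFin ⟨y, hy⟩, ?_⟩
      rw [← hb]
      simp
    · rintro ⟨i, rfl⟩
      rw [← hb]
      exact (t.equivFin.symm i).2
  rw [hrange, Algebra.adjoin_range_eq_range_aeval] at hxG
  obtain ⟨p, hp⟩ := hxG
  have hp' : (∑ e ∈ p.support, algebraMap ℂ A[T;T⁻¹] (p.coeff e) *
      (LaurentPolynomial.C (∏ i, f i ^ e i)
        * LaurentPolynomial.T (-∑ i, (e i : ℤ) * ll i) : A[T;T⁻¹]))
      = LaurentPolynomial.C x * LaurentPolynomial.T (-l) := by
    rw [← hp]
    show _ = MvPolynomial.aeval _ p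
    rw [MvPolynomial.aeval_def, MvPolynomial.eval₂_eq']
    refine Finset.sum_congr rfl fun e _ => ?_
    rw [← prod_CT]
  -- the coefficient at `-l`
  have hcoef : ∀ (a : A) (n m : ℤ),
      (LaurentPolynomial.C a * LaurentPolynomial.T n : A[T;T⁻¹]).coeff m
        = if n = m then a else 0 := by
    intro a n m
    rw [← LaurentPolynomial.single_eq_C_mul_T, AddMonoidAlgebra.coeff_single,
      Finsupp.single_apply]
  have hx2 : x = ∑ e ∈ p.support,
      (if ∑ i, (e i : ℤ) * ll i = l then p.coeff e • ∏ i, f i ^ e i else 0) := by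
    have h1 := congrArg (fun y : A[T;T⁻¹] => y.coeff (-l)) hp'
    simp only [hcoef, if_true] at h1
    rw [← h1]
    have h2 : ∀ e ∈ p.support, algebraMap ℂ A[T;T⁻¹] (p.coeff e) *
        (LaurentPolynomial.C (∏ i, f i ^ e i)
          * LaurentPolynomial.T (-∑ i, (e i : ℤ) * ll i) : A[T;T⁻¹])
        = LaurentPolynomial.C (p.coeff e • ∏ i, f i ^ e i)
          * LaurentPolynomial.T (-∑ i, (e i : ℤ) * ll i) := by
      intro e _
      rw [← Algebra.smul_def, ← LaurentPolynomial.single_eq_C_mul_T,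
        ← LaurentPolynomial.single_eq_C_mul_T, AddMonoidAlgebra.smul_single]
    rw [Finset.sum_congr rfl h2, AddMonoidAlgebra.coeff_sum, Finsupp.finsetSum_apply]
    refine Finset.sum_congr rfl fun e _ => ?_
    rw [hcoef]
    simp only [neg_inj]
  -- degrees
  have hD1 : (1 : A) ∈ D 0 := by
    rw [h.D0]
    exact Submodule.subset_span rfl
  have hpw : ∀ (i : Fin s) (n : ℕ), f i ^ n ∈ D (n * kk i) := by
    intro i n
    induction n with
    | zero => simpa using hD1
    | succ n ih =>
      rw [pow_succ, Nat.succ_mul]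
      exact h.Dmul _ _ _ _ ih (h.le _ _ (hf i))
  have hprod : ∀ (e : Fin s →₀ ℕ) (S : Finset (Fin s)),
      ∏ i ∈ S, f i ^ e i ∈ D (∑ i ∈ S, e i * kk i) := by
    intro e S
    induction S using Finset.induction_on with
    | empty => simpa using hD1
    | insert a S ha ih =>
      rw [Finset.prod_insert ha, Finset.sum_insert ha]
      exact h.Dmul _ _ _ _ (hpw a (e a)) ih
  obtain ⟨κ, hκ⟩ : ∃ κ : (Fin s →₀ ℕ) → ℕ, κ = fun e => ∑ i, e i * kk i := ⟨_, rfl⟩
  obtain ⟨y, hy⟩ : ∃ y : (Fin s →₀ ℕ) → A, y = fun e =>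
      (if ∑ i, (e i : ℤ) * ll i = l then p.coeff e • ∏ i, f i ^ e i else 0) := ⟨_, rfl⟩
  have hyD : ∀ e, y e ∈ D (κ e) := by
    intro e
    rw [hy, hκ]
    dsimp only
    split_ifs
    · exact Submodule.smul_mem _ _ (hprod e Finset.univ)
    · exact zero_mem _
  have hxy : x = ∑ e ∈ p.support, y e := by
    rw [hy]; exact hx2
  have key := h.ind (insert k (p.support.image κ))
    (fun j => (∑ e ∈ p.support.filter (fun e => κ e = j), y e) - (if j = k then x else 0)) (by
      intro j _
      refine sub_mem (Submodule.sum_mem _ fun e he => ?_) ?_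
      · rw [Finset.mem_filter] at he
        rw [← he.2]
        exact hyD e
      · split_ifs with hjk
        · rw [hjk]; exact h.le _ _ hx
        · exact zero_mem _) (by
      rw [Finset.sum_sub_distrib]
      have e1 : ∑ j ∈ insert k (p.support.image κ),
          ∑ e ∈ p.support.filter (fun e => κ e = j), y e = ∑ e ∈ p.support, y e := by
        apply Finset.sum_fiberwise_of_maps_to
        intro e he
        exact Finset.mem_insert_of_mem (Finset.mem_image_of_mem _ he)
      have e2 : ∑ j ∈ insert k (p.support.image κ), (if j = k then x else 0) = x := by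
        rw [Finset.sum_ite_eq' (insert k (p.support.image κ)) k (fun _ => x)]
        simp
      rw [e1, e2, ← hxy, sub_self]) k (Finset.mem_insert_self _ _)
  simp only [if_true] at key
  have hxk : x = ∑ e ∈ p.support.filter (fun e => κ e = k), y e := (sub_eq_zero.mp key).symm
  rw [hxk]
  refine Submodule.sum_mem _ fun e he => ?_
  rw [Finset.mem_filter] at he
  rw [hy]
  dsimp only
  split_ifs with hl
  · refine Submodule.smul_mem _ _ (Submodule.subset_span ⟨fun i => e i, ?_, hl, rfl⟩)
    have := he.2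
    rw [hκ] at this
    exact this
  · exact zero_mem _

end Pool.Agent.Helper16.KPZ
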